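import Pool.Agent.H37.CNW.Stmts
import Pool.Agent.H36.CND.CMB

/-!
# Board cnw, row XD2 (helper49)
-/

set_option autoImplicit false

namespace Pool.CND

open Finset

/-- `b (z x) = b x` for `x ∈ N`, `x ≠ 1`. -/
theorem xd2_val {k L G : Type} [Field k] [Field L] [Algebra k L] [Group G]
    (h3 : S_INJ) (P : Place k L) (ρ : G →* (L ≃ₐ[k] L)) (B N : Subgroup G) (z : G) (l : ℤ)
    (hinj : Function.Injective ρ) (hNB : N ≤ B) (hfix : ∀ g ∈ B, Fixes P (ρ g))
    (hz : z ∈ B) (hzN : z ∉ N) (hzl : P.b (ρ z) = l) (hmax : ∀ g ∈ B, g ≠ 1 → P.b (ρ g) ≤ l)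
    (x : G) (hx : x ∈ N) (hx1 : x ≠ 1) : P.b (ρ (z * x)) = P.b (ρ x) := by
  have hne : ∀ g ∈ B, g ≠ 1 → ρ g P.pi - P.pi ≠ 0 := by
    intro g hg hg1 h0
    apply hg1
    apply hinj
    rw [map_one]
    exact h3 k L P (ρ g) P.pi (hfix g hg) P.pi_ne P.ord_pi (sub_eq_zero.1 h0)
  have hxB : x ∈ B := hNB hx
  have hz1 : z ≠ 1 := fun h => hzN (h ▸ N.one_mem)
  have hzxN : z * x ∉ N := fun h => hzN ((Subgroup.mul_mem_cancel_right N hx).1 h)
  have hzx1 : z * x ≠ 1 := fun h => hzxN (h ▸ N.one_mem)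
  have hzxB : z * x ∈ B := B.mul_mem hz hxB
  have hxne := hne x hxB hx1
  have hzne := hne z hz hz1
  have hzxne := hne (z * x) hzxB hzx1
  have ha : ρ z (ρ x P.pi - P.pi) ≠ 0 := by
    rw [Ne, map_eq_zero_iff _ (ρ z).injective]
    exact hxne
  have hao : P.ord (ρ z (ρ x P.pi - P.pi)) = P.ord (ρ x P.pi - P.pi) := hfix z hz _ hxne
  have hsum : ρ z (ρ x P.pi - P.pi) + (ρ z P.pi - P.pi) = ρ (z * x) P.pi - P.pi := by
    rw [map_sub, map_mul, AlgEquiv.mul_apply]
    ring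
  have hbz : P.ord (ρ z P.pi - P.pi) = l + 1 := by
    rw [← hzl]
    unfold Place.b
    ring
  have hle : P.b (ρ x) ≤ l := hmax x hxB hx1
  have hbx : P.ord (ρ x P.pi - P.pi) = P.b (ρ x) + 1 := by
    unfold Place.b
    ring
  rcases lt_or_eq_of_le hle with hlt | heq
  · have h1 := (P.ord_add_of_lt ha (y := ρ z P.pi - P.pi)
      (Or.inr (by rw [hao, hbx, hbz]; omega))).2
    rw [hsum, hao] at h1
    unfold Place.b
    rw [h1]
  · have h1 := P.ord_add _ _ ha hzne (by rw [hsum]; exact hzxne)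
    rw [hsum, hao, hbx, hbz, heq, min_self] at h1
    have h2 : P.b (ρ (z * x)) ≤ l := hmax _ hzxB hzx1
    have h4 : l ≤ P.b (ρ (z * x)) := by
      unfold Place.b
      omega
    rw [heq]
    exact le_antisymm h2 h4

theorem xd2_thm (_h1 : S_UMW) (_h2 : S_LON) (h3 : S_INJ) : S_XD2 := by
  classical
  intro p k L G _ _ _ _ _ P ρ B N z l β hp _ hinj hNB hfix _ hcard hcos hz hzN hzl hmax
  have hval := xd2_val h3 P ρ B N z l hinj hNB hfix hz hzN hzl hmax
  have hkey : l + sm (fun x => P.b (ρ x)) {g | g ∈ N ∧ g ≠ 1} = Nat.card N * β := by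
    rw [← hcos z hz hzN, cmb_coset]
    have hone : (1 : G) ∈ univ.filter (fun m => m ∈ N) := by
      simp only [Finset.mem_filter, Finset.mem_univ, true_and]
      exact N.one_mem
    rw [← Finset.add_sum_erase _ _ hone, mul_one, hzl]
    congr 1
    unfold sm
    refine Finset.sum_congr ?_ ?_
    · ext x
      simp only [Finset.mem_erase, Finset.mem_filter, Finset.mem_univ, true_and, Set.mem_setOf_eq]
      exact and_comm
    · intro x hx
      simp only [Finset.mem_erase, Finset.mem_filter, Finset.mem_univ, true_and] at hx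
      exact (hval x hx.2 hx.1).symm
  have hT := cmb_sumT (fun x => P.b (ρ x)) N B β hNB hcos
  have hs := cmb_split (fun x => P.b (ρ x)) N B hNB
  have hc := cmb_cardT N B hNB
  rw [hs, hT, ← add_assoc, hkey]
  have hc' : ((univ.filter (fun g => g ∈ B ∧ g ∉ N)).card : ℤ) + (Nat.card N : ℤ)
      = (Nat.card B : ℤ) := by exact_mod_cast hc
  rw [← hc']
  ring

end Pool.CND
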